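import Mathlib

/-! Small tools: cocycles of group actions, subgroups of index `p`, voltage covers. -/

namespace Pool.Agent.Lib.MP_b549f0_co.SP

/-- The cyclic group of order `p`. -/
abbrev Cp (p : ℕ) : Type := Multiplicative (ZMod p)

/-- The group has no quotient isomorphic to the wreath product of two cyclic groups of order `p`. -/
def NoWr (p : ℕ) (P : Type*) [Group P] : Prop :=
  ∀ f : P →* RegularWreathProduct (Cp p) (Cp p), ¬Function.Surjective f

/-- A cocycle that vanishes on stabilisers is a coboundary. -/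
theorem exists_potential {U Ω Z : Type*} [Group U] [MulAction U Ω] [CommGroup Z]
    (κ : U → Ω → Z) (hκ : ∀ x y c, κ (x * y) c = κ x (y • c) * κ y c)
    (h0 : ∀ x c, x • c = c → κ x c = 1) : ∃ h : Ω → Z, ∀ x c, κ x c = h (x • c) / h c := by
  have hr : ∀ c : Ω, ∃ a : U, a • (Quotient.mk (MulAction.orbitRel U Ω) c).out = c := fun c =>
    MulAction.orbitRel_apply.1
      ((MulAction.orbitRel U Ω).symm (Quotient.mk_out (s := MulAction.orbitRel U Ω) c))
  choose a ha using hr
  refine ⟨fun c => κ (a c) (Quotient.mk (MulAction.orbitRel U Ω) c).out, fun x c => ?_⟩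
  have e : Quotient.mk (MulAction.orbitRel U Ω) (x • c) = Quotient.mk _ c :=
    Quotient.sound (MulAction.orbitRel_apply.2 ⟨x, rfl⟩)
  have h1 := ha (x • c)
  have h2 := ha c
  beta_reduce
  rw [e] at h1 ⊢
  generalize (Quotient.mk (MulAction.orbitRel U Ω) c).out = r at h1 h2 ⊢
  have h3 : ((a (x • c))⁻¹ * (x * a c)) • r = r := by
    rw [mul_smul, mul_smul, h2, inv_smul_eq_iff, h1]
  have h4 := hκ (a (x • c)) ((a (x • c))⁻¹ * (x * a c)) r
  rw [mul_inv_cancel_left, h0 _ _ h3, h3, mul_one, hκ, h2] at h4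
  rw [← h4, mul_div_cancel_right]

/-- A proper subgroup of a finite `p`-group lies in a normal subgroup of index `p`. -/
theorem exists_normal_index {p : ℕ} [Fact p.Prime] {P : Type*} [Group P] [Finite P]
    (hP : IsPGroup p P) (S : Subgroup P) (hS : S ≠ ⊤) :
    ∃ R : Subgroup P, S ≤ R ∧ R.Normal ∧ R.index = p := by
  obtain h | ⟨R, hR, hSR⟩ := eq_top_or_exists_le_coatom S
  · exact absurd h hS
  have := hP.isNilpotent
  have hn : R.Normal :=
    Subgroup.NormalizerCondition.normal_of_coatom R Group.normalizerCondition_of_isNilpotent hR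
  refine ⟨R, hSR, hn, ?_⟩
  have : Nontrivial (P ⧸ R) := QuotientGroup.nontrivial_iff.2 hR.1
  obtain ⟨n, hn0, hc⟩ := (hP.to_quotient R).nontrivial_iff_card.1 inferInstance
  obtain ⟨g, hg⟩ := exists_prime_orderOf_dvd_card' (G := P ⧸ R) p (hc ▸ dvd_pow_self p hn0.ne')
  obtain ⟨x, rfl⟩ := QuotientGroup.mk_surjective g
  have h1 : (Subgroup.zpowers (x : P ⧸ R)).comap (QuotientGroup.mk' R) = ⊤ := by
    refine hR.2 _ (lt_of_le_of_ne (fun y hy => ?_) fun e => ?_)
    · rw [Subgroup.mem_comap, QuotientGroup.mk'_apply, (QuotientGroup.eq_one_iff y).2 hy]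
      exact one_mem _
    · have hx : x ∈ R := by rw [e]; exact Subgroup.mem_zpowers _
      rw [(QuotientGroup.eq_one_iff x).2 hx, orderOf_one] at hg
      exact (Fact.out : p.Prime).one_lt.ne hg
  have h2 : Subgroup.zpowers (x : P ⧸ R) = ⊤ := by
    refine eq_top_iff.2 fun y _ => ?_
    obtain ⟨z, rfl⟩ := QuotientGroup.mk_surjective y
    exact (h1 ▸ Subgroup.mem_top z : z ∈ (Subgroup.zpowers (x : P ⧸ R)).comap (QuotientGroup.mk' R))
  rw [Subgroup.index, ← Subgroup.card_top, ← h2, Nat.card_zpowers, hg]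

/-- The cover of a graph `B` given by voltages `ν` in a group `G`. -/
def vcover {U G : Type*} [Group G] (B : SimpleGraph U) (ν : U → U → G)
    (hν : ∀ u v, B.Adj u v → ν v u = (ν u v)⁻¹) : SimpleGraph (U × G) where
  Adj a b := B.Adj a.1 b.1 ∧ b.2 = a.2 * ν a.1 b.1
  symm := ⟨fun a b h => ⟨h.1.symm, by rw [hν _ _ h.1, h.2]; simp⟩⟩
  loopless := ⟨fun _ h => h.1.ne rfl⟩

/-- Deck transformations of a voltage cover. -/
def vdeck {U G : Type*} [Group G] (B : SimpleGraph U) (ν : U → U → G)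
    (hν : ∀ u v, B.Adj u v → ν v u = (ν u v)⁻¹) : G →* (vcover B ν hν ≃g vcover B ν hν) where
  toFun h :=
    { toEquiv := (Equiv.refl _).prodCongr (Equiv.mulLeft h)
      map_rel_iff' := by
        intro a b
        simp [vcover, mul_assoc] }
  map_one' := by ext a <;> simp
  map_mul' h k := by ext a <;> simp [RelIso.mul_apply, mul_assoc]

theorem vdeck_apply {U G : Type*} [Group G] (B : SimpleGraph U) (ν : U → U → G)
    (hν : ∀ u v, B.Adj u v → ν v u = (ν u v)⁻¹) (h : G) (a : U × G) :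
    vdeck B ν hν h a = (a.1, h * a.2) := rfl

end Pool.Agent.Lib.MP_b549f0_co.SP
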