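import Pool.Agent.Lib.MP_b549f0_co.Cover
import Pool.Agent.Lib.MP_b549f0_co.SP.Cob

/-! The base graph on `2 D` vertices and voltages that give a connected cover. -/

namespace Pool.Agent.Lib.MP_b549f0_co.SP

/-- The base graph. -/
def base (D : ℕ) (hD : 6 ≤ D) : SimpleGraph (Fin (2 * D)) where
  Adj u v := A D u v
  symm := ⟨fun u _ h => A_symm hD u.2 h⟩
  loopless := ⟨fun _ h => A_ne hD h rfl⟩

theorem base_ncard {D : ℕ} (hD : 6 ≤ D) (u : Fin (2 * D)) :
    ((base D hD).neighborSet u).ncard = 3 := by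
  obtain ⟨a, b, c, ha, hb, hc, hab, hac, hbc, h⟩ := exists_nbrs hD u u.2
  rw [Set.ncard_eq_three]
  refine ⟨⟨a, ha⟩, ⟨b, hb⟩, ⟨c, hc⟩, by simp [hab], by simp [hac], by simp [hbc], ?_⟩
  ext v
  simp only [SimpleGraph.mem_neighborSet, base, Set.mem_insert_iff, Set.mem_singleton_iff,
    Fin.ext_iff, h v v.2]

/-- The cycle space of the base graph has rank `D + 1`. -/
theorem exists_voltage {D : ℕ} (hD : 6 ≤ D) {G : Type*} [Group G] (g : ℕ → G)
    (hgen : Subgroup.closure (g '' {i | i < D + 1}) = ⊤) :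
    ∃ (ν : Fin (2 * D) → Fin (2 * D) → G)
      (hν : ∀ u v, (base D hD).Adj u v → ν v u = (ν u v)⁻¹),
      (vcover (base D hD) ν hν).Connected := by
  obtain ⟨H, g', hH, hg'⟩ : ∃ (H : Subgroup G) (g' : ℕ → H),
      Subgroup.closure (g' '' {i | i < D}) = ⊤ ∧ ∀ i < D, (g' i : G) = g i := by
    refine ⟨Subgroup.closure (g '' {i | i < D}), fun i => if h : i < D then
      ⟨g i, Subgroup.subset_closure ⟨i, h, rfl⟩⟩ else 1, ?_, fun i hi => by simp [hi]⟩
    rw [eq_top_iff, ← Subgroup.closure_closure_coe_preimage]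
    refine Subgroup.closure_mono ?_
    rintro ⟨_, hx⟩ ⟨i, hi, rfl⟩
    exact ⟨i, hi, by simp [show i < D from hi]⟩
  obtain ⟨ν, hν, h12, hφ⟩ : ∃ ν : ℕ → ℕ → G, (∀ u v, u ≠ v → ν v u = (ν u v)⁻¹) ∧ ν 1 2 = g D ∧
      ∀ u v, ¬ (u = 1 ∧ v = 2) → ¬ (u = 2 ∧ v = 1) → ν u v = (phi D g' u v : H) := by
    refine ⟨fun u v => if u = 1 ∧ v = 2 then g D else if u = 2 ∧ v = 1 then (g D)⁻¹
      else (phi D g' u v : H), fun u v huv => ?_, by simp, fun u v h1 h2 => by simp [h1, h2]⟩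
    by_cases h1 : u = 1 ∧ v = 2
    · simp [h1.1, h1.2]
    by_cases h2 : u = 2 ∧ v = 1
    · simp [h2.1, h2.2]
    beta_reduce
    rw [if_neg (by omega), if_neg (by omega), if_neg h1, if_neg h2, phi_symm D g' huv]
    rfl
  refine ⟨fun u v => ν u v, fun u v h => hν _ _ (A_ne hD h), ?_⟩
  set X := vcover (base D hD) (fun u v => ν u v) fun u v h => hν _ _ (A_ne hD h)
  have h0 : 0 < 2 * D := by omega
  have h1 : 1 < 2 * D := by omega
  have h2 : 2 < 2 * D := by omega
  have edge : ∀ u v (hu : u < 2 * D) (hv : v < 2 * D) x, A D u v →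
      X.Reachable (⟨u, hu⟩, x) (⟨v, hv⟩, x * ν u v) := fun u v hu hv x h =>
    SimpleGraph.Adj.reachable ⟨h, rfl⟩
  have e01 : ∀ x, X.Reachable (⟨0, h0⟩, x) (⟨1, h1⟩, x) := fun x => by
    have := edge 0 1 h0 h1 x (by simp [A, nb])
    rwa [hφ 0 1 (by omega) (by omega), show phi D g' 0 1 = 1 by simp [phi, psi],
      OneMemClass.coe_one, mul_one] at this
  have e02 : ∀ x, X.Reachable (⟨0, h0⟩, x) (⟨2, h2⟩, x) := fun x => by
    have := edge 0 2 h0 h2 x (by simp [A, nb])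
    rwa [hφ 0 2 (by omega) (by omega), show phi D g' 0 2 = 1 by simp [phi, psi],
      OneMemClass.coe_one, mul_one] at this
  have key := closed_all hD g' hH
    (fun u y => ∀ (hu : u < 2 * D) (x : G), X.Reachable (⟨0, h0⟩, x) (⟨u, hu⟩, x * y))
    (fun u v y hu hv hA h _ x => by
      refine (h hu x).trans ?_
      by_cases c1 : u = 1 ∧ v = 2
      · obtain ⟨rfl, rfl⟩ := c1
        rw [show phi D g' 1 2 = 1 by simp [phi, psi], mul_one]
        exact (e01 _).symm.trans (e02 _)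
      by_cases c2 : u = 2 ∧ v = 1
      · obtain ⟨rfl, rfl⟩ := c2
        rw [show phi D g' 2 1 = 1 by simp [phi, psi], mul_one]
        exact (e02 _).symm.trans (e01 _)
      rw [Subgroup.coe_mul, ← mul_assoc, ← hφ u v c1 c2]
      exact edge u v hu hv _ hA) (fun _ x => by simp)
  have all : ∀ y, y ∈ Subgroup.closure (g '' {i | i < D + 1}) →
      ∀ x, X.Reachable (⟨0, h0⟩, x) (⟨0, h0⟩, x * y) := by
    intro y hy
    induction hy using Subgroup.closure_induction with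
    | mem y hy =>
      obtain ⟨i, hi, rfl⟩ := hy
      intro x
      rcases (Nat.lt_succ_iff.1 hi).eq_or_lt with rfl | hi
      · exact ((e01 x).trans (h12 ▸ edge 1 2 h1 h2 x (by simp [A, nb]))).trans (e02 _).symm
      · exact hg' i hi ▸ key 0 (g' i) h0 h0 x
    | one => intro x; rw [mul_one]
    | mul y z _ _ k1 k2 => intro x; rw [← mul_assoc]; exact (k1 x).trans (k2 _)
    | inv y _ k1 =>
      intro x
      have := k1 (x * y⁻¹)
      rw [inv_mul_cancel_right] at this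
      exact this.symm
  have root : ∀ a : Fin (2 * D) × G, X.Reachable (⟨0, h0⟩, 1) a := by
    rintro ⟨⟨u, hu⟩, x⟩
    have k1 := all x (by rw [hgen]; trivial) 1
    have k2 := key u 1 hu hu x
    rw [one_mul] at k1
    rw [OneMemClass.coe_one, mul_one] at k2
    exact k1.trans k2
  have : Nonempty (Fin (2 * D) × G) := ⟨(⟨0, h0⟩, 1)⟩
  exact ⟨fun a b => (root a).symm.trans (root b)⟩

end Pool.Agent.Lib.MP_b549f0_co.SP
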