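import Pool.Agent.Lib.MP_b549f0_co.SP.Cob

/-! Characters of a `p`-group, and elements killed by all characters of order `p`. -/

namespace Pool.Agent.Lib.MP_b549f0_co.SP

theorem basis_card_Cp (p : ℕ) : Nat.card (Cp p) = p := by
  rw [Nat.card_congr Multiplicative.toAdd, Nat.card_zmod]

theorem basis_pow_p {p : ℕ} (z : Cp p) : z ^ p = 1 := by
  have h := pow_card_eq_one' (x := z)
  rwa [basis_card_Cp] at h

/-- A proper subgroup of a finite `p`-group lies in the kernel of a non-trivial character. -/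
theorem basis_exists_char {p : ℕ} [Fact p.Prime] {G : Type*} [Group G] [Finite G]
    (hG : IsPGroup p G) (S : Subgroup G) (hS : S ≠ ⊤) :
    ∃ φ : G →* Cp p, S ≤ φ.ker ∧ φ.ker ≠ ⊤ := by
  obtain ⟨R, hSR, hn, hi⟩ := exists_normal_index hG S hS
  let e : G ⧸ R ≃* Cp p := mulEquivOfPrimeCardEq hi (basis_card_Cp p)
  have hk : (e.toMonoidHom.comp (QuotientGroup.mk' R)).ker = R := by
    ext x
    simp
  refine ⟨e.toMonoidHom.comp (QuotientGroup.mk' R), hk.symm ▸ hSR, ?_⟩
  rw [hk]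
  rintro rfl
  rw [Subgroup.index_top] at hi
  exact (Fact.out : p.Prime).one_lt.ne hi

theorem pow_rank_le {p : ℕ} [Fact p.Prime] {G : Type*} [Group G] [Finite G]
    (hG : IsPGroup p G) : p ^ Group.rank G ≤ Nat.card (G →* Cp p) := by
  classical
  obtain ⟨S, hS, hcl⟩ := Group.rank_spec G
  have h1 : ∀ s : S, ∃ φ : G →* Cp p, φ s ≠ 1 ∧ ∀ t : S, t ≠ s → φ t = 1 := by
    intro s
    have hne : Subgroup.closure ((S.erase s : Finset G) : Set G) ≠ ⊤ := fun h => by
      have h2 := Group.rank_le h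
      have h3 := Finset.card_erase_lt_of_mem s.2
      omega
    obtain ⟨φ, hφ, hk⟩ := basis_exists_char hG _ hne
    have h4 : ∀ t : S, t ≠ s → φ t = 1 := fun t ht =>
      hφ (Subgroup.subset_closure (Finset.mem_coe.2
        (Finset.mem_erase.2 ⟨fun e => ht (Subtype.ext e), t.2⟩)))
    refine ⟨φ, fun h => hk ?_, h4⟩
    rw [eq_top_iff, ← hcl, Subgroup.closure_le]
    intro t ht
    by_cases e : (⟨t, ht⟩ : S) = s
    · rw [← e] at h
      exact h
    · exact h4 ⟨t, ht⟩ e
  choose φ hφ hφ' using h1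
  have : Finite (G →* Cp p) := Finite.of_injective _ DFunLike.coe_injective
  have hev : ∀ (a : S → Fin p) (s : S), (∏ t, φ t ^ (a t : ℕ)) s = φ s s ^ (a s : ℕ) := by
    intro a s
    rw [MonoidHom.finsetProd_apply, Finset.prod_eq_single s]
    · rfl
    · intro t _ ht
      rw [MonoidHom.pow_apply, hφ' t s ht.symm, one_pow]
    · simp
  have hinj : Function.Injective fun a : S → Fin p => ∏ t, φ t ^ (a t : ℕ) := by
    intro a b hab
    funext s
    have h2 : φ s s ^ (a s : ℕ) = φ s s ^ (b s : ℕ) := by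
      rw [← hev, ← hev]
      exact DFunLike.congr_fun hab _
    have h3 : orderOf (φ s s) = p := orderOf_eq_prime (basis_pow_p _) (hφ s)
    exact Fin.ext (pow_injOn_Iio_orderOf (by rw [h3]; exact (a s).2) (by rw [h3]; exact (b s).2) h2)
  have h5 := Nat.card_le_card_of_injective _ hinj
  rwa [Nat.card_fun, Nat.card_eq_fintype_card, Fintype.card_fin, Nat.card_eq_fintype_card,
    Fintype.card_coe, hS] at h5

/-- Let `P` be a self-normalising `p`-subgroup and `F` a set closed under powers and conjugation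
that meets `P` trivially. Then every character of order `p` kills `F`. -/
theorem hom_eq_one_of_mem {p : ℕ} [Fact p.Prime] {A : Type*} [Group A] [Finite A]
    (P : Subgroup A) (hP : IsPGroup p P)
    (hN : ∀ a : A, (∀ x ∈ P, a⁻¹ * x * a ∈ P) → a ∈ P) (F : Set A)
    (hpow : ∀ a ∈ F, ∀ n : ℕ, a ^ n ∈ F) (hconj : ∀ a ∈ F, ∀ g : A, g * a * g⁻¹ ∈ F)
    (hfree : ∀ x ∈ P, x ∈ F → x = 1) (φ : A →* Cp p) (a : A) (ha : a ∈ F) : φ a = 1 := by
  have hp : p.Prime := Fact.out
  obtain ⟨Q, hQ⟩ := hP.exists_le_sylow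
  have hQP : (Q : Subgroup A) ≤ P := by
    have := Q.isPGroup'.isNilpotent
    have h1 : P.subgroupOf Q = ⊤ := by
      refine normalizerCondition_iff_only_full_group_self_normalizing.1
        Group.normalizerCondition_of_isNilpotent _ (le_antisymm (fun y hy => ?_) Subgroup.le_normalizer)
      refine Subgroup.mem_subgroupOf.2 (hN _ fun x hx => ?_)
      exact Subgroup.mem_subgroupOf.1
        ((Subgroup.mem_normalizer_iff''.1 hy ⟨x, hQ hx⟩).1 (Subgroup.mem_subgroupOf.2 hx))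
    exact Subgroup.subgroupOf_eq_top.1 h1
  obtain ⟨k, m, hm, hkm⟩ := Nat.exists_eq_pow_mul_and_not_dvd (orderOf_pos a).ne' p hp.ne_one
  have hy : (a ^ m) ^ p ^ k = 1 := by rw [← pow_mul, mul_comm, ← hkm, pow_orderOf_eq_one]
  have hz : IsPGroup p (Subgroup.zpowers (a ^ m)) := by
    rintro ⟨_, n, rfl⟩
    refine ⟨k, Subtype.ext ?_⟩
    change ((a ^ m) ^ n) ^ p ^ k = 1
    rw [← zpow_natCast, ← zpow_mul, mul_comm, zpow_mul, zpow_natCast, hy, one_zpow]
  obtain ⟨Q', hQ'⟩ := hz.exists_le_sylow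
  obtain ⟨g, rfl⟩ := MulAction.exists_smul_eq A Q' Q
  have h2 : g * a ^ m * g⁻¹ ∈ P :=
    hQP (Subgroup.smul_mem_pointwise_smul _ (MulAut.conj g) _ (hQ' (Subgroup.mem_zpowers _)))
  have h3 := hfree _ h2 (hconj _ (hpow a ha m) g)
  have h4 : φ a ^ m = 1 := by
    rw [← map_pow, conj_eq_one_iff.1 h3, map_one]
  exact (pow_eq_one_iff_of_coprime ((hp.coprime_iff_not_dvd.2 hm).symm)).1 ⟨h4, basis_pow_p _⟩

end Pool.Agent.Lib.MP_b549f0_co.SP
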