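import Pool.Agent.Lib.MP_b549f0_co.SP.Cob

/-! Automorphisms of a voltage cover and its fibres. -/

namespace Pool.Agent.Lib.MP_b549f0_co.SP

variable {U G : Type*} [Group G] (B : SimpleGraph U) (ν : U → U → G)
  (hν : ∀ u v, B.Adj u v → ν v u = (ν u v)⁻¹)

theorem vcover_ncard (a : U × G) :
    ((vcover B ν hν).neighborSet a).ncard = (B.neighborSet a.1).ncard := by
  have e : (vcover B ν hν).neighborSet a =
      (fun v => (v, a.2 * ν a.1 v)) '' B.neighborSet a.1 := by
    ext b
    constructor
    · rintro ⟨h1, h2⟩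
      exact ⟨b.1, h1, Prod.ext rfl h2.symm⟩
    · rintro ⟨v, hv, rfl⟩
      exact ⟨hv, rfl⟩
  rw [e]
  exact Set.ncard_image_of_injective _ (fun v w h => congrArg Prod.fst h)

theorem vdeck_injective [Nonempty U] : Function.Injective (vdeck B ν hν) := by
  intro g k e
  obtain ⟨u⟩ := ‹Nonempty U›
  have h1 : vdeck B ν hν g (u, 1) = vdeck B ν hν k (u, 1) := by rw [e]
  rw [vdeck_apply, vdeck_apply] at h1
  simpa using congrArg Prod.snd h1

/-- An automorphism of a connected cover that preserves every fibre is a deck transformation. -/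
theorem mem_range_of_fib (hc : (vcover B ν hν).Connected) (α : vcover B ν hν ≃g vcover B ν hν)
    (h : ∀ a, (α a).1 = a.1) : α ∈ (vdeck B ν hν).range := by
  obtain ⟨a⟩ := hc.nonempty
  refine ⟨(α a).2 * a.2⁻¹, ?_⟩
  have key : ∀ b, (α b).2 = (α a).2 * a.2⁻¹ * b.2 := by
    intro b
    have hr := (SimpleGraph.reachable_iff_reflTransGen a b).1 (hc.preconnected a b)
    induction hr with
    | refl => simp
    | @tail c d _ hcd ih =>
      have h1 : (vcover B ν hν).Adj (α c) (α d) := α.map_rel_iff.2 hcd
      rw [h1.2, h c, h d, ih, hcd.2, mul_assoc _ c.2]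
  apply RelIso.ext
  intro b
  rw [vdeck_apply]
  exact Prod.ext (h b).symm (key b).symm

/-- Over a base without automorphisms, the normaliser of the deck group preserves the fibres. -/
theorem fib_of_normal [Finite G] [Finite U] (hB : ∀ (β : B ≃g B) (u : U), β u = u)
    (α : vcover B ν hν ≃g vcover B ν hν)
    (h : ∀ x ∈ (vdeck B ν hν).range, α⁻¹ * x * α ∈ (vdeck B ν hν).range) (a : U × G) :
    (α a).1 = a.1 := by
  have hf : ∀ b : U × G, (α.symm b).1 = (α.symm (b.1, 1)).1 := by
    intro b
    obtain ⟨k, hk⟩ := h _ ⟨b.2, rfl⟩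
    have h1 : vdeck B ν hν k (α.symm (b.1, 1)) =
        α.symm (vdeck B ν hν b.2 (α (α.symm (b.1, 1)))) := by
      rw [hk]; rfl
    rw [RelIso.apply_symm_apply, vdeck_apply, vdeck_apply] at h1
    have h2 := congrArg Prod.fst h1
    simp only [mul_one] at h2
    exact h2.symm
  have hs : Function.Surjective (fun u : U => (α.symm (u, 1)).1) := by
    intro v
    refine ⟨(α (v, 1)).1, ?_⟩
    have := hf (α (v, 1))
    rw [RelIso.symm_apply_apply] at this
    exact this.symm
  have hi := Finite.injective_iff_surjective.2 hs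
  let β : B ≃g B :=
    { toEquiv := Equiv.ofBijective _ ⟨hi, hs⟩
      map_rel_iff' := by
        intro u v
        change B.Adj (α.symm (u, 1)).1 (α.symm (v, 1)).1 ↔ B.Adj u v
        constructor
        · intro e
          have h1 : (vcover B ν hν).Adj (α.symm (u, 1)) ((α.symm (v, 1)).1,
              (α.symm (u, 1)).2 * ν (α.symm (u, 1)).1 (α.symm (v, 1)).1) := ⟨e, rfl⟩
          have h2 := α.map_rel_iff.2 h1
          rw [RelIso.apply_symm_apply] at h2
          have h3 := hf (α ((α.symm (v, 1)).1,
              (α.symm (u, 1)).2 * ν (α.symm (u, 1)).1 (α.symm (v, 1)).1))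
          rw [RelIso.symm_apply_apply] at h3
          have h4 := hi h3
          rw [h4]
          exact h2.1
        · intro e
          have h1 : (vcover B ν hν).Adj (u, 1) (v, 1 * ν u v) := ⟨e, rfl⟩
          have h2 := (α.symm.map_rel_iff.2 h1).1
          rwa [hf (v, 1 * ν u v)] at h2 }
  have h1 := hf (α a)
  rw [RelIso.symm_apply_apply] at h1
  exact (h1.trans (hB β (α a).1)).symm

end Pool.Agent.Lib.MP_b549f0_co.SP
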