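import Pool.Agent.Lib.MP_b549f0_co.SP.Cob

/-! A group acting on a connected cubic graph with `k` vertex orbits has at most `p ^ (k / 2 + 1)`
characters of order `p` if these kill the stabilisers of vertices and edges. -/

namespace Pool.Agent.Lib.MP_b549f0_co.SP

open MulAction in
theorem rank_out {A W : Type*} [Group A] [MulAction A W] (x : W) :
    ∃ a : A, a • x = (Quotient.mk (orbitRel A W) x).out :=
  orbitRel_apply.1 (Quotient.mk_out (s := orbitRel A W) x)

open MulAction in
theorem rank_smul {A W : Type*} [Group A] [MulAction A W] (a : A) (x : W) :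
    Quotient.mk (orbitRel A W) (a • x) = Quotient.mk _ x :=
  Quotient.sound (orbitRel_apply.2 ⟨a, rfl⟩)

open MulAction in
theorem rank_half {A V : Type*} [Group A] [Finite V] [MulAction A V] (X : SimpleGraph V)
    (h3 : ∀ v, (X.neighborSet v).ncard = 3)
    (hA : ∀ (a : A) (v w : V), X.Adj v w → X.Adj (a • v) (a • w)) :
    ∃ S : Set (V × V), 2 * S.ncard ≤ 3 * Nat.card (orbitRel.Quotient A V) ∧
      ∀ v w, X.Adj v w → (∃ a : A, (a • v, a • w) ∈ S) ∨ (∃ a : A, (a • w, a • v) ∈ S) ∨
        ∃ a : A, a • v = w ∧ a • w = v := by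
  classical
  obtain ⟨ι, hι⟩ := exists_injective_nat (Quotient (orbitRel A (V × V)))
  obtain ⟨σ, hσ⟩ : ∃ σ : Quotient (orbitRel A (V × V)) → Quotient (orbitRel A (V × V)),
      ∀ x, σ (Quotient.mk _ x) = Quotient.mk _ x.swap := by
    refine ⟨fun q => Quotient.mk _ q.out.swap, fun x => ?_⟩
    obtain ⟨a, ha⟩ := rank_out (A := A) x
    beta_reduce
    rw [← ha]
    exact rank_smul a x.swap
  have hσσ : Function.Involutive σ := fun q => by
    induction q using Quotient.inductionOn with
    | h x => rw [hσ, hσ, Prod.swap_swap]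
  have hadj : ∀ v w, X.Adj v w → X.Adj (Quotient.mk (orbitRel A (V × V)) (v, w)).out.1
      (Quotient.mk (orbitRel A (V × V)) (v, w)).out.2 := fun v w h => by
    obtain ⟨a, ha⟩ := rank_out (A := A) (v, w)
    rw [← ha]
    exact hA a v w h
  obtain ⟨P, hP⟩ : ∃ P : Set (Quotient (orbitRel A (V × V))),
      ∀ q, q ∈ P ↔ X.Adj q.out.1 q.out.2 ∧ ι q < ι (σ q) := ⟨{q | _}, fun _ => Iff.rfl⟩
  have key : ∀ v w, X.Adj v w → ι (Quotient.mk _ (v, w)) < ι (Quotient.mk _ (w, v)) →
      ∃ a : A, (a • v, a • w) ∈ Quotient.out '' P := fun v w h h' => by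
    obtain ⟨a, ha⟩ := rank_out (A := A) (v, w)
    exact ⟨a, _, (hP _).2 ⟨hadj v w h, by rwa [hσ]⟩, ha.symm⟩
  refine ⟨Quotient.out '' P, ?_, fun v w h => ?_⟩
  · let g : (Σ o : orbitRel.Quotient A V, X.neighborSet o.out) → Quotient (orbitRel A (V × V)) :=
      fun x => Quotient.mk _ (x.1.out, x.2.1)
    have hg : ∀ v w, X.Adj v w → Quotient.mk _ (v, w) ∈ Set.range g := fun v w h => by
      obtain ⟨a, ha⟩ := rank_out (A := A) v
      refine ⟨⟨Quotient.mk _ v, a • w, ?_⟩, ?_⟩
      · have := hA a v w h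
        rwa [ha] at this
      · have := rank_smul a (v, w)
        rwa [Prod.smul_mk, ha] at this
    have hsub : P ∪ σ '' P ⊆ Set.range g := by
      rintro _ (h | ⟨q, h, rfl⟩)
      · have := hg _ _ ((hP _).1 h).1
        rwa [Quotient.out_eq] at this
      · have := hg _ _ ((hP _).1 h).1.symm
        rwa [← Quotient.out_eq q, hσ]
    have hdis : Disjoint P (σ '' P) := by
      refine Set.disjoint_left.2 ?_
      rintro _ h ⟨q, h', rfl⟩
      have h1 := ((hP _).1 h).2
      have h2 := ((hP _).1 h').2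
      rw [hσσ] at h1
      omega
    have h1 := Set.ncard_le_ncard hsub
    rw [Set.ncard_union_eq hdis, Set.ncard_image_of_injective _ hσσ.injective] at h1
    have h2 : (Set.range g).ncard ≤
        Nat.card (Σ o : orbitRel.Quotient A V, X.neighborSet o.out) := by
      rw [← Set.image_univ, ← Set.ncard_univ]
      exact Set.ncard_image_le
    have := Fintype.ofFinite (orbitRel.Quotient A V)
    rw [Nat.card_sigma, Finset.sum_congr rfl fun o _ => (Nat.card_coe_set_eq _).trans (h3 _),
      Finset.sum_const, Finset.card_univ, ← Nat.card_eq_fintype_card, smul_eq_mul] at h2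
    rw [Set.ncard_image_of_injective _ Quotient.out_injective]
    omega
  · rcases lt_trichotomy (ι (Quotient.mk _ (v, w))) (ι (Quotient.mk _ (w, v))) with a | a | a
    · exact Or.inl (key v w h a)
    · obtain ⟨b, hb⟩ := orbitRel_apply.1 (Quotient.exact (hι a).symm)
      exact Or.inr (Or.inr ⟨b, congrArg Prod.fst hb, congrArg Prod.snd hb⟩)
    · exact Or.inr (Or.inl (key w v h.symm a))

theorem rank_bound {p : ℕ} [Fact p.Prime] {A V : Type*} [Group A] [Finite A] [Finite V]
    [MulAction A V] (X : SimpleGraph V) (hc : X.Connected)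
    (h3 : ∀ v, (X.neighborSet v).ncard = 3)
    (hA : ∀ (a : A) (v w : V), X.Adj v w → X.Adj (a • v) (a • w))
    (h1 : ∀ (φ : A →* Cp p) (a : A) (v : V), a • v = v → φ a = 1)
    (h2 : ∀ (φ : A →* Cp p) (a : A) (v w : V), X.Adj v w → a • v = w → a • w = v → φ a = 1)
    (d : ℕ) (hd : p ^ d ≤ Nat.card (A →* Cp p)) :
    2 * d ≤ Nat.card (MulAction.orbitRel.Quotient A V) + 2 := by
  have hp : 1 < p := (Fact.out : p.Prime).one_lt
  choose f hf using fun φ : A →* Cp p => exists_potential (U := A) (Ω := V) (fun a _ => φ a)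
    (fun x y _ => map_mul φ x y) fun x c h => h1 φ x c h
  obtain ⟨v0⟩ := hc.nonempty
  obtain ⟨S, hS, hcov⟩ := rank_half X h3 hA
  obtain ⟨F, hF⟩ : ∃ F : (A →* Cp p) × (MulAction.orbitRel.Quotient A V → Cp p) → V → Cp p,
      ∀ x v, F x v = f x.1 v * x.2 (Quotient.mk _ v) := ⟨_, fun _ _ => rfl⟩
  have hFs : ∀ x (a : A) v, F x (a • v) = x.1 a * F x v := fun x a v => by
    rw [hF, hF, rank_smul, hf x.1 a v, ← mul_assoc, div_mul_cancel]
  have hinj : Function.Injective fun x =>
      ((fun s => F x s.1.2 / F x s.1.1, F x v0) : (S → Cp p) × Cp p) := by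
    intro x y h
    obtain ⟨e1, e2⟩ := Prod.mk.inj h
    have k1 : ∀ (a : A) v w, (a • v, a • w) ∈ S → F x w / F x v = F y w / F y v := by
      intro a v w h
      have := congrFun e1 ⟨_, h⟩
      simpa only [hFs, mul_div_mul_left_eq_div] using this
    have k2 : ∀ v w, X.Adj v w → F x w / F x v = F y w / F y v := by
      intro v w h
      rcases hcov v w h with ⟨a, ha⟩ | ⟨a, ha⟩ | ⟨a, ha, hb⟩
      · exact k1 a v w ha
      · rw [← inv_div, k1 a w v ha, inv_div]
      · rw [← ha, hFs, hFs, h2 _ a v w h ha hb, h2 _ a v w h ha hb, one_mul, one_mul, div_self',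
          div_self']
    have k3 : ∀ v w, X.Walk v w → F x v = F y v → F x w = F y w := by
      intro v w c
      induction c with
      | nil => exact id
      | cons h _ ih =>
        intro e
        have := k2 _ _ h
        rw [e] at this
        exact ih (div_left_injective this)
    have k4 : ∀ v, F x v = F y v := fun v => (hc.preconnected v0 v).elim fun c => k3 _ _ c e2
    have k5 : x.1 = y.1 := MonoidHom.ext fun a => by
      have := k4 (a • v0)
      rw [hFs, hFs, e2] at this
      exact mul_right_cancel this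
    refine Prod.ext k5 (funext fun o => ?_)
    induction o using Quotient.inductionOn with
    | h v =>
      have := k4 v
      rw [hF, hF, k5] at this
      exact mul_left_cancel this
  have hC : Nat.card (Cp p) = p := (Nat.card_congr Multiplicative.toAdd).trans (Nat.card_zmod p)
  have h := Nat.card_le_card_of_injective _ hinj
  rw [Nat.card_prod, Nat.card_prod, Nat.card_fun, Nat.card_fun, hC, Nat.card_coe_set_eq] at h
  have h' := (Nat.mul_le_mul_right _ hd).trans h
  rw [← pow_add, ← pow_succ, Nat.pow_le_pow_iff_right hp] at h'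
  omega

end Pool.Agent.Lib.MP_b549f0_co.SP
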