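import Pool.Agent.Lib.MP_b549f0_co.SP.Base

/-! The base graph has no automorphism but the identity. -/

set_option linter.unusedSimpArgs false

namespace Pool.Agent.Lib.MP_b549f0_co.SP

section

variable {G : Type*} [Group G] {d : ℕ} {hd : 6 ≤ d} {g : ℕ → G}

lemma rigid_A3 {n : ℕ} (hn : 2 * d = n + 6) (v : ℕ) :
    A d 3 v ↔ v = 2 ∨ v = n + 4 ∨ v = n + 5 := by
  rw [A3, hn]
  exact Iff.rfl

lemma rigid_B4 {n : ℕ} (hn : 2 * d = n + 6) (h : 6 ≤ n) (v : ℕ) :
    A d (n + 4) v ↔ v = n + 2 ∨ v = n + 5 ∨ v = 3 := by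
  rw [A_ge (by omega)]
  omega

lemma rigid_B5 {n : ℕ} (hn : 2 * d = n + 6) (h : 6 ≤ n) (v : ℕ) :
    A d (n + 5) v ↔ v = n + 3 ∨ v = n + 4 ∨ v = 3 := by
  rw [A_ge (by omega)]
  omega

lemma rigid_B2 {n : ℕ} (hn : 2 * d = n + 6) (h : 8 ≤ n) (v : ℕ) :
    A d (n + 2) v ↔ v = n ∨ v = n + 3 ∨ v = n + 4 := by
  rw [A_ge (by omega)]
  omega

lemma rigid_B3 {n : ℕ} (hn : 2 * d = n + 6) (h : 8 ≤ n) (v : ℕ) :
    A d (n + 3) v ↔ v = n + 1 ∨ v = n + 2 ∨ v = n + 5 := by
  rw [A_ge (by omega)]
  omega

/-- Over the trivial group the vertices on triangles form an invariant set. -/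
lemma rigid_tri [Subsingleton G] :
    Good d hd g (fun u => u ∈ [0, 1, 2, 3, 2 * d - 2, 2 * d - 1]) := by
  have e1 : 10 ≤ 2 * d - 2 := by omega
  have e2 : 10 ≤ 2 * d - 1 := by omega
  have key : ∀ p : Fin (2 * d) × G, ((p.1 : ℕ) ∈ [0, 1, 2, 3, 2 * d - 2, 2 * d - 1]) ↔
      ∃ q r, (cover d hd g).Adj p q ∧ (cover d hd g).Adj q r ∧ (cover d hd g).Adj r p := by
    rintro ⟨⟨u, hu⟩, x⟩
    have mk : ∀ v w, v < 2 * d → w < 2 * d → A d u v → A d v w → A d w u →
        ∃ q r, (cover d hd g).Adj (⟨u, hu⟩, x) q ∧ (cover d hd g).Adj q r ∧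
          (cover d hd g).Adj r (⟨u, hu⟩, x) := fun v w hv hw h1 h2 h3 =>
      ⟨(⟨v, hv⟩, x), (⟨w, hw⟩, x), ⟨h1, Subsingleton.elim _ _⟩, ⟨h2, Subsingleton.elim _ _⟩,
        ⟨h3, Subsingleton.elim _ _⟩⟩
    have a1 : A d 3 (2 * d - 2) := (A3 _ _).2 (by omega)
    have a2 : A d (2 * d - 2) (2 * d - 1) := (A_ge e1 _).2 (by omega)
    have a3 : A d (2 * d - 1) 3 := (A_ge e2 _).2 (by omega)
    have b1 : A d 0 1 := (A0 _ _).2 (by omega)
    have b2 : A d 1 2 := (A1 _ _).2 (by omega)
    have b3 : A d 2 0 := (A2 _ _).2 (by omega)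
    simp only [List.mem_cons, List.not_mem_nil, or_false]
    constructor
    · rintro (rfl | rfl | rfl | rfl | rfl | rfl)
      · exact mk 1 2 (by omega) (by omega) b1 b2 b3
      · exact mk 2 0 (by omega) (by omega) b2 b3 b1
      · exact mk 0 1 (by omega) (by omega) b3 b1 b2
      · exact mk _ _ (by omega) (by omega) a1 a2 a3
      · exact mk _ _ (by omega) (by omega) a2 a3 a1
      · exact mk _ _ (by omega) (by omega) a3 a1 a2
    · rintro ⟨⟨⟨v, hv⟩, y⟩, ⟨⟨w, hw⟩, z⟩, ⟨h1, -⟩, ⟨h2, -⟩, ⟨h3, -⟩⟩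
      have := tri_base hd hu hv hw h1 h2 h3
      omega
  intro α p hp
  obtain ⟨q, r, h1, h2, h3⟩ := (key p).1 hp
  exact (key (α p)).2 ⟨α q, α r, α.map_adj_iff.2 h1, α.map_adj_iff.2 h2, α.map_adj_iff.2 h3⟩

/-- The first triangle is invariant: its outer neighbours `4`, `5` are not adjacent. -/
lemma rigid_first [Subsingleton G] (h7 : 7 ≤ d) : Good d hd g (fun u => u ∈ [0, 1, 2]) := by
  obtain ⟨n, hn⟩ : ∃ n, 2 * d = n + 6 := ⟨2 * d - 6, by omega⟩
  have h8 : 8 ≤ n := by omega
  have h6 : 6 ≤ n := by omega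
  have T := rigid_tri (hd := hd) (g := g)
  rw [show 2 * d - 2 = n + 4 by omega, show 2 * d - 1 = n + 5 by omega] at T
  have N : Good d hd g (fun u => u ∈ [4, 5, n + 2, n + 3]) :=
    ((T.nbrL (by simp; omega)).and T.not).congr fun u hu => by
      simp only [List.mem_cons, List.not_mem_nil, or_false, exists_eq_or_imp, exists_eq_left,
        A0, A1, A2, rigid_A3 hn, rigid_B4 hn h6, rigid_B5 hn h6]
      omega
  have M : Good d hd g (fun u => u ∈ [4, 5]) :=
    (N.and (N.nbrL (by simp; omega)).not).congr fun u hu => by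
      simp only [List.mem_cons, List.not_mem_nil, or_false, exists_eq_or_imp, exists_eq_left,
        A4, A5, rigid_B2 hn h8, rigid_B3 hn h8]
      omega
  have P : Good d hd g (fun u => u ∈ [0, 1]) :=
    (T.and (M.nbrL (by simp; omega))).congr fun u hu => by
      simp only [List.mem_cons, List.not_mem_nil, or_false, exists_eq_or_imp, exists_eq_left,
        A4, A5]
      omega
  exact (T.and (P.nbrL (by simp; omega))).congr fun u hu => by
    simp only [List.mem_cons, List.not_mem_nil, or_false, exists_eq_or_imp, exists_eq_left,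
      A0, A1]
    omega

/-- If the first triangle is invariant then so is every vertex. -/
lemma rigid_single (T : Good d hd g (fun u => u ∈ [0, 1, 2])) (c : ℕ) (hc : c < 2 * d) :
    Good d hd g (fun u => u = c) := by
  obtain ⟨n, hn⟩ : ∃ n, 2 * d = n + 6 := ⟨2 * d - 6, by omega⟩
  have h6 : 6 ≤ n := by omega
  have D1 : Good d hd g (fun u => u ∈ [3, 4, 5]) :=
    ((T.nbrL (by simp; omega)).and T.not).congr fun u hu => by
      simp only [List.mem_cons, List.not_mem_nil, or_false, exists_eq_or_imp, exists_eq_left,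
        A0, A1, A2, rigid_A3 hn, A4, A5, A6, A7, A8, A9, rigid_B4 hn h6, rigid_B5 hn h6]
      omega
  have D2 : Good d hd g (fun u => u ∈ [6, 7, 8, n + 4, n + 5]) :=
    ((D1.nbrL (by simp; omega)).and T.not).congr fun u hu => by
      simp only [List.mem_cons, List.not_mem_nil, or_false, exists_eq_or_imp, exists_eq_left,
        A0, A1, A2, rigid_A3 hn, A4, A5, A6, A7, A8, A9, rigid_B4 hn h6, rigid_B5 hn h6]
      omega
  have v7 : Good d hd g (fun u => u = 7) :=
    (D2.and (D2.nbrL (by simp; omega)).not).congr fun u hu => by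
      simp only [List.mem_cons, List.not_mem_nil, or_false, exists_eq_or_imp, exists_eq_left,
        A0, A1, A2, rigid_A3 hn, A4, A5, A6, A7, A8, A9, rigid_B4 hn h6, rigid_B5 hn h6]
      omega
  have v3 : Good d hd g (fun u => u = 3) :=
    (D1.and (v7.nbr1 (by omega)).not).congr fun u hu => by
      simp only [List.mem_cons, List.not_mem_nil, or_false, rigid_A3 hn, A4, A5, A6, A7, A8, A9]
      omega
  have v2 : Good d hd g (fun u => u = 2) :=
    (T.and (v3.nbr1 (by omega))).congr fun u hu => by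
      simp only [List.mem_cons, List.not_mem_nil, or_false, rigid_A3 hn, A4, A5, A6, A7, A8, A9]
      omega
  have v9 : Good d hd g (fun u => u = 9) :=
    (D1.not.and (v7.nbr1 (by omega))).congr fun u hu => by
      simp only [List.mem_cons, List.not_mem_nil, or_false, rigid_A3 hn, A4, A5, A6, A7, A8, A9]
      omega
  have v6 : Good d hd g (fun u => u = 6) :=
    ((D2.and v7.not).and ((v9.nbr1 (by omega)).and (v3.nbr1 (by omega)).not)).congr fun u hu => by
      simp only [List.mem_cons, List.not_mem_nil, or_false, rigid_A3 hn, A4, A5, A6, A7, A8, A9]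
      omega
  have v8 : Good d hd g (fun u => u = 8) :=
    ((D2.and v7.not).and (v6.not.and (v3.nbr1 (by omega)).not)).congr fun u hu => by
      simp only [List.mem_cons, List.not_mem_nil, or_false, rigid_A3 hn, A4, A5, A6, A7, A8, A9]
      omega
  have v4 : Good d hd g (fun u => u = 4) :=
    (D1.and (v6.nbr1 (by omega))).congr fun u hu => by
      simp only [List.mem_cons, List.not_mem_nil, or_false, rigid_A3 hn, A4, A5, A6, A7, A8, A9]
      omega
  have v5 : Good d hd g (fun u => u = 5) :=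
    (D1.and (v8.nbr1 (by omega))).congr fun u hu => by
      simp only [List.mem_cons, List.not_mem_nil, or_false, rigid_A3 hn, A4, A5, A6, A7, A8, A9]
      omega
  have v0 : Good d hd g (fun u => u = 0) :=
    (T.and (v4.nbr1 (by omega))).congr fun u hu => by
      simp only [List.mem_cons, List.not_mem_nil, or_false, rigid_A3 hn, A4, A5, A6, A7, A8, A9]
      omega
  have v1 : Good d hd g (fun u => u = 1) :=
    (T.and (v5.nbr1 (by omega))).congr fun u hu => by
      simp only [List.mem_cons, List.not_mem_nil, or_false, rigid_A3 hn, A4, A5, A6, A7, A8, A9]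
      omega
  have v10 : Good d hd g (fun u => u = 10) :=
    ((v8.nbr1 (by omega)).and (v5.not.and v6.not)).congr fun u hu => by
      simp only [A8, A9]
      omega
  have v11 : Good d hd g (fun u => u = 11) :=
    ((v9.nbr1 (by omega)).and (v7.not.and v6.not)).congr fun u hu => by
      simp only [A8, A9]
      omega
  induction c using Nat.strong_induction_on with
  | _ c ih =>
    by_cases h12 : c < 12
    · interval_cases c <;> assumption
    · by_cases h2 : c % 2 = 0
      · exact (((ih (c - 2) (by omega) (by omega)).nbr1 (by omega)).and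
          ((ih (c - 4) (by omega) (by omega)).not.and
            (ih (c - 1) (by omega) (by omega)).not)).congr fun u hu => by
          rw [A_ge (by omega)]
          omega
      · exact (((ih (c - 2) (by omega) (by omega)).nbr1 (by omega)).and
          ((ih (c - 4) (by omega) (by omega)).not.and
            (ih (c - 3) (by omega) (by omega)).not)).congr fun u hu => by
          rw [A_ge (by omega)]
          omega

end

theorem base_rigid {D : ℕ} (hD : 6 ≤ D) (h7 : 7 ≤ D) (β : base D hD ≃g base D hD)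
    (u : Fin (2 * D)) : β u = u := by
  let α : cover D hD (fun _ => (1 : PUnit.{1})) ≃g cover D hD (fun _ => (1 : PUnit.{1})) :=
    { toEquiv := β.toEquiv.prodCongr (Equiv.refl _)
      map_rel_iff' := fun {p r} =>
        ⟨fun h => ⟨β.map_adj_iff.1 h.1, Subsingleton.elim _ _⟩,
          fun h => ⟨β.map_adj_iff.2 h.1, Subsingleton.elim _ _⟩⟩ }
  exact Fin.ext (rigid_single (rigid_first h7) u u.2 α (u, 1) rfl)

end Pool.Agent.Lib.MP_b549f0_co.SP
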