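import Pool.Agent.Lib.MP_b549f0_co.SP.Tr
import Pool.Agent.Lib.MP_b549f0_co.SP.Basis
import Pool.Agent.Lib.MP_b549f0_co.SP.Rank
import Pool.Agent.Lib.MP_b549f0_co.SP.Fib
import Pool.Agent.Lib.MP_b549f0_co.SP.Rigid

/-! A connected cover of an asymmetric cubic graph on `2 (d - 1)` vertices with a `p`-group of
rank `d` as deck group has no further automorphisms. -/

namespace Pool.Agent.Lib.MP_b549f0_co.SP

theorem vdeck_surjective {p : ℕ} [Fact p.Prime] {U G : Type*} [Finite U] [Group G] [Finite G]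
    (hG : IsPGroup p G) (hw : NoWr p G) (B : SimpleGraph U) (ν : U → U → G)
    (hν : ∀ u v, B.Adj u v → ν v u = (ν u v)⁻¹) (h3 : ∀ u, (B.neighborSet u).ncard = 3)
    (hB : ∀ (β : B ≃g B) (u : U), β u = u) (hc : (vcover B ν hν).Connected)
    (hU : Nat.card U + 2 = 2 * Group.rank G) : Function.Surjective (vdeck B ν hν) := by
  obtain ⟨a0⟩ := hc.nonempty
  have : Nonempty U := ⟨a0.1⟩
  have : Finite (vcover B ν hν ≃g vcover B ν hν) :=
    Finite.of_injective (fun α : vcover B ν hν ≃g vcover B ν hν => (α : U × G → U × G))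
      DFunLike.coe_injective
  have e : G ≃* (vdeck B ν hν).range := MonoidHom.ofInjective (vdeck_injective B ν hν)
  have hP : IsPGroup p (vdeck B ν hν).range := hG.of_equiv e
  have hwP : NoWr p (vdeck B ν hν).range := fun f hf =>
    hw (f.comp e.toMonoidHom) (hf.comp e.surjective)
  have hN : ∀ a : vcover B ν hν ≃g vcover B ν hν,
      (∀ x ∈ (vdeck B ν hν).range, a⁻¹ * x * a ∈ (vdeck B ν hν).range) →
        a ∈ (vdeck B ν hν).range := fun a h =>
    mem_range_of_fib B ν hν hc a (fib_of_normal B ν hν hB a h)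
  have hK := hom_eq_one_of_mem (vdeck B ν hν).range hP hN
    {a | ∃ v, a v = v ∨ ((vcover B ν hν).Adj v (a v) ∧ a (a v) = v)} ?_ ?_ ?_
  · have hd : p ^ Group.rank G ≤ Nat.card ((vcover B ν hν ≃g vcover B ν hν) →* Cp p) := by
      rw [Group.rank_congr e]
      exact (pow_rank_le hP).trans (card_hom_le _ hP hwP hN)
    have hr := rank_bound (p := p) (A := vcover B ν hν ≃g vcover B ν hν) (vcover B ν hν) hc
      (fun v => (vcover_ncard B ν hν v).trans (h3 _)) (fun a v w h => a.map_adj_iff.2 h)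
      (fun φ a v h => hK φ a ⟨v, Or.inl h⟩)
      (fun φ a v w h h1 h2 => hK φ a ⟨v, Or.inr (by
        have h1' : a v = w := h1
        have h2' : a w = v := h2
        rw [h1']
        exact ⟨h, h2'⟩)⟩) _ hd
    let π : U → MulAction.orbitRel.Quotient (vcover B ν hν ≃g vcover B ν hν) (U × G) :=
      fun u => Quotient.mk _ (u, 1)
    have hπ : ∀ a : U × G, π a.1 = Quotient.mk _ a := fun a =>
      (Quotient.sound (MulAction.orbitRel_apply.2 ⟨vdeck B ν hν a.2, by
        change vdeck B ν hν a.2 (a.1, 1) = a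
        rw [vdeck_apply, mul_one]⟩)).symm
    have hs : Function.Surjective π := fun o => ⟨o.out.1, (hπ _).trans o.out_eq⟩
    have hi := (hs.bijective_of_nat_card_le (by omega)).1
    intro α
    refine mem_range_of_fib B ν hν hc α fun a => hi ?_
    rw [hπ, hπ]
    exact Quotient.sound (MulAction.orbitRel_apply.2 ⟨α, rfl⟩)
  · rintro a ⟨v, h⟩ n
    refine ⟨v, ?_⟩
    rcases h with h | ⟨h1, h2⟩
    · left
      induction n with
      | zero => rfl
      | succ n ih => rw [pow_succ, RelIso.mul_apply, h, ih]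
    · have key : ((a ^ n) v = v ∧ (a ^ n) (a v) = a v) ∨ ((a ^ n) v = a v ∧ (a ^ n) (a v) = v) := by
        induction n with
        | zero => exact Or.inl ⟨rfl, rfl⟩
        | succ n ih =>
          rw [pow_succ, RelIso.mul_apply, RelIso.mul_apply, h2]
          exact ih.symm.imp (fun h => ⟨h.2, h.1⟩) fun h => ⟨h.2, h.1⟩
      rcases key with h | h
      · exact Or.inl h.1
      · right
        rw [h.1]
        exact ⟨h1, h.2⟩
  · rintro a ⟨v, h⟩ g
    refine ⟨g v, ?_⟩
    have e1 : ∀ w, (g * a * g⁻¹) (g w) = g (a w) := fun w => by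
      rw [RelIso.mul_apply, RelIso.mul_apply, RelIso.inv_apply_self]
    rw [e1, e1]
    rcases h with h | ⟨h1, h2⟩
    · exact Or.inl (by rw [h])
    · exact Or.inr ⟨g.map_adj_iff.2 h1, by rw [h2]⟩
  · rintro _ ⟨g, rfl⟩ ⟨v, h | ⟨h, -⟩⟩
    · have h1 : g * v.2 = v.2 := congrArg Prod.snd h
      rw [mul_eq_right.1 h1, map_one]
    · exact absurd rfl h.1.ne

theorem main {p : ℕ} [Fact p.Prime] {G : Type*} [Group G] [Finite G] (hG : IsPGroup p G)
    (hw : NoWr p G) (hd : 8 ≤ Group.rank G) :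
    ∃ X : SimpleGraph (Fin (2 * (Group.rank G - 1)) × G),
      (∀ v, (X.neighborSet v).ncard = 3) ∧ Nonempty ((X ≃g X) ≃* G) := by
  have hD : 6 ≤ Group.rank G - 1 := by omega
  obtain ⟨g, hgen, -⟩ := exists_gens G (by omega)
  obtain ⟨ν, hν, hc⟩ := exists_voltage hD g (by rwa [Nat.sub_add_cancel (by omega)])
  have : Nonempty (Fin (2 * (Group.rank G - 1))) := ⟨⟨0, by omega⟩⟩
  refine ⟨vcover _ ν hν, fun v => (vcover_ncard _ ν hν v).trans (base_ncard hD _),
    ⟨(MulEquiv.ofBijective (vdeck _ ν hν) ⟨vdeck_injective _ ν hν, vdeck_surjective hG hw _ ν hν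
      (base_ncard hD) (base_rigid hD (by omega)) hc ?_⟩).symm⟩⟩
  rw [Nat.card_eq_fintype_card, Fintype.card_fin]
  omega

end Pool.Agent.Lib.MP_b549f0_co.SP
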