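import Pool.Agent.Lib.MP_b549f0_co.SP.Cob

/-! The norm of a character of a normal subgroup of index `p` is trivial on that subgroup, unless
the group maps onto the wreath product. -/

namespace Pool.Agent.Lib.MP_b549f0_co.SP

/-- A shift invariant group of functions with an element of non-zero sum is everything. -/
theorem nm_span {p : ℕ} [Fact p.Prime] (M : AddSubgroup (Cp p → ZMod p))
    (hM : ∀ b ∈ M, ∀ q, (fun x => b (q⁻¹ * x)) ∈ M) {a : Cp p → ZMod p} (ha : a ∈ M)
    (h0 : ∑ q, a q ≠ 0) (b : Cp p → ZMod p) : b ∈ M := by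
  classical
  have hp : p.Prime := Fact.out
  have hc : ∀ (f : Cp p → ZMod p) (x : Cp p),
      (∑ q, MonoidAlgebra.single q (f q) : MonoidAlgebra (ZMod p) (Cp p)).coeff x = f x := by
    intro f x
    simp [MonoidAlgebra.coeff_sum, Finsupp.finsetSum_apply, Finsupp.single_apply]
  obtain ⟨A, hA⟩ : ∃ A : MonoidAlgebra (ZMod p) (Cp p),
      A = ∑ q, MonoidAlgebra.single q (a q) := ⟨_, rfl⟩
  have h1 : ∀ c : MonoidAlgebra (ZMod p) (Cp p), (fun x => (c * A).coeff x) ∈ M := by
    intro c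
    induction c using MonoidAlgebra.induction_linear with
    | zero =>
      have e : (fun x => ((0 : MonoidAlgebra (ZMod p) (Cp p)) * A).coeff x) = 0 := by
        funext x
        simp
      rw [e]
      exact M.zero_mem
    | add c d hc' hd' =>
      have e : (fun x => ((c + d) * A).coeff x) =
          (fun x => (c * A).coeff x) + fun x => (d * A).coeff x := by
        funext x
        simp [add_mul]
      rw [e]
      exact M.add_mem hc' hd'
    | single q r =>
      have e : (fun x => (MonoidAlgebra.single q r * A).coeff x) =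
          r.val • fun x => a (q⁻¹ * x) := by
        funext x
        rw [MonoidAlgebra.coeff_single_mul_apply, hA, hc]
        simp
      rw [e]
      exact M.nsmul_mem (hM a ha q) _
  have : CharP (MonoidAlgebra (ZMod p) (Cp p)) p :=
    charP_of_injective_algebraMap (algebraMap (ZMod p) _).injective p
  have h2 : A ^ p = algebraMap (ZMod p) _ (∑ q, a q) := by
    rw [hA, sum_pow_char, map_sum]
    refine Finset.sum_congr rfl fun q _ => ?_
    have h3 : q ^ p = 1 := by
      have h4 := pow_card_eq_one (x := q)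
      rwa [Fintype.card_multiplicative, ZMod.card] at h4
    rw [MonoidAlgebra.single_pow, h3, ZMod.pow_card]
    rfl
  have h5 := h1 ((∑ q, MonoidAlgebra.single q (b q)) *
    algebraMap (ZMod p) _ (∑ q, a q)⁻¹ * A ^ (p - 1))
  rw [mul_assoc, ← pow_succ, Nat.sub_add_cancel hp.pos, h2, mul_assoc, ← map_mul,
    inv_mul_cancel₀ h0, map_one, mul_one] at h5
  simpa only [hc] using h5

theorem norm_eq_one {p : ℕ} [Fact p.Prime] {P : Type*} [Group P] (hw : NoWr p P)
    (R : Subgroup P) [R.Normal] [Fintype (P ⧸ R)] (hR : R.index = p) (W : P → Cp p)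
    (hW : ∀ x ∈ R, ∀ y ∈ R, W (x * y) = W x * W y) (s : P ⧸ R → P)
    (hs : ∀ j, (s j : P ⧸ R) = j) {u : P} (hu : u ∈ R) :
    ∏ j, W ((s j)⁻¹ * u * s j) = 1 := by
  by_contra hN
  have e : P ⧸ R ≃* Cp p :=
    mulEquivOfPrimeCardEq (p := p) hR (Nat.card_zmod p)
  obtain ⟨π, hπ⟩ : ∃ π : P →* Cp p, ∀ x, π x = e (x : P ⧸ R) :=
    ⟨e.toMonoidHom.comp (QuotientGroup.mk' R), fun _ => rfl⟩
  obtain ⟨σ, hσ⟩ : ∃ σ : Cp p → P, ∀ q, σ q = s (e.symm q) := ⟨_, fun _ => rfl⟩
  have h1 : ∀ q, π (σ q) = q := fun q => by rw [hπ, hσ, hs, e.apply_symm_apply]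
  have h2 : ∀ x, π x = 1 ↔ x ∈ R := fun x => by
    rw [hπ, e.map_eq_one_iff, QuotientGroup.eq_one_iff]
  have h3 : ∀ x q, (σ q)⁻¹ * x * σ ((π x)⁻¹ * q) ∈ R := fun x q => by
    rw [← h2, map_mul, map_mul, map_inv, h1, h1]
    group
  let Φ : P →* RegularWreathProduct (Cp p) (Cp p) :=
    MonoidHom.mk' (fun x => ⟨fun q => W ((σ q)⁻¹ * x * σ ((π x)⁻¹ * q)), π x⟩) fun x y => by
      refine RegularWreathProduct.ext (funext fun q => ?_) (map_mul π x y)
      show W _ = W _ * W _
      rw [← hW _ (h3 _ _) _ (h3 _ _), map_mul, mul_inv_rev]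
      congr 1
      simp only [mul_assoc, mul_inv_cancel_left]
  let M : AddSubgroup (Cp p → ZMod p) :=
    { carrier := {b | (⟨fun x => .ofAdd (b x), 1⟩ : RegularWreathProduct (Cp p) (Cp p)) ∈ Φ.range}
      add_mem' := fun {b c} hb hc => by
        have h4 := Φ.range.mul_mem hb hc
        refine (congrArg (· ∈ Φ.range) ?_).mp h4
        refine RegularWreathProduct.ext (funext fun q => ?_) (mul_one _)
        simp
      zero_mem' := Φ.range.one_mem
      neg_mem' := fun {b} hb => by
        have h4 := Φ.range.inv_mem hb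
        refine (congrArg (· ∈ Φ.range) ?_).mp h4
        refine RegularWreathProduct.ext (funext fun q => ?_) inv_one
        simp }
  have h5 : ∀ q, (Φ (σ q)).right = q := h1
  have h6 : ∀ b ∈ M, ∀ q, (fun x => b (q⁻¹ * x)) ∈ M := fun b hb q => by
    have h4 := Φ.range.mul_mem (Φ.range.mul_mem ⟨σ q, rfl⟩ hb) (Φ.range.inv_mem ⟨σ q, rfl⟩)
    refine (congrArg (· ∈ Φ.range) ?_).mp h4
    have h7 := h5 q
    generalize Φ (σ q) = g at h7 ⊢
    refine RegularWreathProduct.ext (funext fun x => ?_) (by simp)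
    simp [h7]
  have h8 : π u = 1 := (h2 u).2 hu
  have h9 : (fun q => (W ((σ q)⁻¹ * u * σ q)).toAdd) ∈ M := by
    refine ⟨u, RegularWreathProduct.ext (funext fun q => ?_) h8⟩
    show W _ = W _
    rw [h8, inv_one, one_mul]
  have h10 : ∑ q, (W ((σ q)⁻¹ * u * σ q)).toAdd ≠ 0 := fun h => hN (by
    rw [← toAdd_prod, toAdd_eq_zero] at h
    rw [← h, ← e.symm.toEquiv.prod_comp]
    exact Finset.prod_congr rfl fun q _ => by rw [hσ]; rfl)
  refine hw Φ fun w => ?_
  have h11 := nm_span M h6 h9 h10 fun x => ((w * (Φ (σ w.right))⁻¹).left x).toAdd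
  have h12 := Φ.range.mul_mem h11 ⟨σ w.right, rfl⟩
  refine (congrArg (· ∈ Φ.range) ?_).mp h12
  rw [← eq_mul_inv_iff_mul_eq]
  refine RegularWreathProduct.ext rfl ?_
  rw [RegularWreathProduct.mul_right, RegularWreathProduct.inv_right, h5, mul_inv_cancel]

end Pool.Agent.Lib.MP_b549f0_co.SP
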