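import Pool.Agent.Lib.MP_b549f0_co.SP.Van

/-! The transfer from a self-normalising `p`-subgroup is injective on characters of order `p`. -/

namespace Pool.Agent.Lib.MP_b549f0_co.SP

theorem tr_mem {A : Type*} [Group A] (P : Subgroup A) (x : A) (c : A ⧸ P) :
    (x • c).out⁻¹ * x * c.out ∈ P := by
  rw [mul_assoc, ← QuotientGroup.eq, QuotientGroup.out_eq', ← smul_eq_mul,
    MulAction.Quotient.coe_smul_out]

/-- The element of `P` attached to `x` and the coset `c`. -/
noncomputable def trEl {A : Type*} [Group A] (P : Subgroup A) (x : A) (c : A ⧸ P) : P :=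
  ⟨(x • c).out⁻¹ * x * c.out, tr_mem P x c⟩

theorem tr_mul {A : Type*} [Group A] (P : Subgroup A) (x y : A) (c : A ⧸ P) :
    trEl P (x * y) c = trEl P x (y • c) * trEl P y c := by
  refine Subtype.ext ?_
  simp only [trEl, Subgroup.coe_mul, mul_smul]
  group

theorem tr_fix {A : Type*} [Group A] (P : Subgroup A) (x : A) (c : A ⧸ P) (h : x • c = c) :
    (trEl P x c : A) = c.out⁻¹ * x * c.out := by
  simp only [trEl, h]

theorem tr_base {A : Type*} [Group A] (P : Subgroup A) (x : A) (hx : x ∈ P) :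
    x • ((1 : A) : A ⧸ P) = ((1 : A) : A ⧸ P) := by
  rw [MulAction.Quotient.smul_coe, QuotientGroup.eq]
  simpa using hx

theorem tr_out {A : Type*} [Group A] (P : Subgroup A) (c : A ⧸ P) :
    c = ((1 : A) : A ⧸ P) ↔ c.out ∈ P := by
  have h := QuotientGroup.eq (s := P) (a := (1 : A)) (b := c.out)
  rw [QuotientGroup.out_eq', inv_one, one_mul] at h
  rw [← h, eq_comm]

theorem tr_eq_one {p : ℕ} [Fact p.Prime] {A : Type*} [Group A] [Finite A] (P : Subgroup A)
    [Fintype (A ⧸ P)] (hP : IsPGroup p P) (hw : NoWr p P)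
    (hN : ∀ a : A, (∀ x ∈ P, a⁻¹ * x * a ∈ P) → a ∈ P) (χ : P →* Cp p)
    (h : ∀ x : A, ∏ c, χ (trEl P x c) = 1) (k : ℕ) : ∀ u : P, u ^ p ^ k = 1 → χ u = 1 := by
  classical
  induction k with
  | zero =>
    intro u hu
    rw [pow_zero, pow_one] at hu
    rw [hu, map_one]
  | succ k ih =>
    intro u hu
    have h1 := prod_cocycle_eq_one hP hw (fun (x : P) (c : A ⧸ P) => χ (trEl P x c))
      (fun x y c => by rw [Subgroup.coe_mul, tr_mul, map_mul]; rfl) u
      (fun l c hl hc => by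
        obtain ⟨m, rfl⟩ := hl
        refine ih _ (Subtype.ext ?_)
        have e : (u ^ (p * m)) ^ p ^ k = 1 := by
          rw [← pow_mul, mul_right_comm, ← pow_succ', pow_mul, hu, one_pow]
        have e2 := conj_pow (i := p ^ k) (a := c.out⁻¹) (b := ((u ^ (p * m) : P) : A))
        rw [inv_inv, ← Subgroup.coe_pow, e] at e2
        rw [Subgroup.coe_pow, tr_fix P ((u ^ (p * m) : P) : A) c hc, e2]
        simp)
      (Finset.univ.erase ((1 : A) : A ⧸ P))
      (fun x c hc => by
        refine Finset.mem_erase.2 ⟨fun h0 => (Finset.mem_erase.1 hc).1 ?_, Finset.mem_univ _⟩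
        rw [smul_eq_iff_eq_inv_smul] at h0
        exact h0.trans (tr_base P _ (x⁻¹).2))
      (fun c hc => by
        by_contra hn
        push Not at hn
        refine (Finset.mem_erase.1 hc).1 ((tr_out P c).2 (hN _ fun x hx => ?_))
        rw [← tr_fix P x c (hn ⟨x, hx⟩)]
        exact (trEl P x c).2)
    have h2 := h u
    rw [← Finset.mul_prod_erase _ _ (Finset.mem_univ ((1 : A) : A ⧸ P)), h1, mul_one] at h2
    have ho := (tr_out P ((1 : A) : A ⧸ P)).1 rfl
    have h3 : trEl P u ((1 : A) : A ⧸ P) = (⟨_, ho⟩ : P)⁻¹ * u * ⟨_, ho⟩ :=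
      Subtype.ext (tr_fix P _ _ (tr_base P _ u.2))
    rw [h3, map_mul, map_mul, map_inv, inv_mul_cancel_comm] at h2
    exact h2

theorem card_hom_le {p : ℕ} [Fact p.Prime] {A : Type*} [Group A] [Finite A] (P : Subgroup A)
    (hP : IsPGroup p P) (hw : NoWr p P)
    (hN : ∀ a : A, (∀ x ∈ P, a⁻¹ * x * a ∈ P) → a ∈ P) :
    Nat.card (P →* Cp p) ≤ Nat.card (A →* Cp p) := by
  have := Fintype.ofFinite (A ⧸ P)
  have : NeZero p := ⟨(Fact.out : p.Prime).ne_zero⟩
  have : Finite (A →* Cp p) := Finite.of_injective _ DFunLike.coe_injective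
  let tr : (P →* Cp p) → (A →* Cp p) := fun φ =>
    MonoidHom.mk' (fun x => ∏ c, φ (trEl P x c)) fun x y => by
      simp only [tr_mul, map_mul, Finset.prod_mul_distrib]
      rw [← Equiv.prod_comp (MulAction.toPerm y) fun c => φ (trEl P x c)]
      rfl
  refine Nat.card_le_card_of_injective tr fun φ ψ h => MonoidHom.ext fun u => ?_
  obtain ⟨k, hk⟩ := hP u
  have h1 := tr_eq_one P hP hw hN (φ / ψ) (fun x => by
    have h2 : ∏ c, φ (trEl P x c) = ∏ c, ψ (trEl P x c) := DFunLike.congr_fun h x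
    simp only [MonoidHom.div_apply, Finset.prod_div_distrib, h2, div_self']) k u hk
  exact div_eq_one.1 h1

end Pool.Agent.Lib.MP_b549f0_co.SP
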