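import Pool.Agent.Lib.MP_b549f0_co.SP.Norm

/-! The part of a transfer that comes from an invariant set without fixed points. -/

namespace Pool.Agent.Lib.MP_b549f0_co.SP

theorem van_perm {P Ω Z : Type*} [Group P] [MulAction P Ω] [CommMonoid Z] (x : P) (O : Finset Ω)
    (hO : ∀ c ∈ O, x • c ∈ O) (f : Ω → Z) : ∏ c ∈ O, f (x • c) = ∏ c ∈ O, f c := by
  classical
  have hi : Function.Injective fun c : Ω => x • c := MulAction.injective x
  have e : O.image (fun c => x • c) = O :=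
    Finset.eq_of_subset_of_card_le (Finset.image_subset_iff.2 hO)
      (Finset.card_image_of_injective _ hi).ge
  conv_rhs => rw [← e]
  rw [Finset.prod_image fun _ _ _ _ h => hi h]

theorem van_out {p : ℕ} {P Ω : Type*} [Group P] [Finite P] [MulAction P Ω] (κ : P → Ω → Cp p)
    (hκ : ∀ x y c, κ (x * y) c = κ x (y • c) * κ y c) (u : P) (O : Finset Ω)
    (hO : ∀ (x : P), ∀ c ∈ O, x • c ∈ O)
    (hu : ∀ (l : ℕ), ∀ c ∈ O, u ^ l • c = c → κ (u ^ l) c = 1) : ∏ c ∈ O, κ u c = 1 := by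
  classical
  have hiff : ∀ (y : P) (c : Ω), y • c ∈ O ↔ c ∈ O := fun y c =>
    ⟨fun h => by simpa using hO y⁻¹ _ h, hO y c⟩
  obtain ⟨h, hh⟩ := exists_potential (U := Subgroup.zpowers u) (Ω := Ω)
    (fun x c => if c ∈ O then κ x c else 1)
    (fun x y c => by
      by_cases hc : c ∈ O
      · have h1 : y • c ∈ O := (hiff y c).2 hc
        rw [if_pos hc, if_pos hc, if_pos h1]
        exact hκ x y c
      · have h1 : y • c ∉ O := fun h => hc ((hiff y c).1 h)
        rw [if_neg hc, if_neg hc, if_neg h1, mul_one])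
    (fun x c hx => by
      by_cases hc : c ∈ O
      · rw [if_pos hc]
        obtain ⟨x, hxu⟩ := x
        obtain ⟨l, rfl⟩ := mem_powers_iff_mem_zpowers.2 hxu
        exact hu l c hc hx
      · rw [if_neg hc])
  have e : ∀ c ∈ O, κ u c = h (u • c) / h c := fun c hc => by
    have h1 := hh ⟨u, Subgroup.mem_zpowers u⟩ c
    rw [if_pos hc] at h1
    exact h1
  rw [Finset.prod_congr rfl e, Finset.prod_div_distrib, van_perm u O (hO u) h, div_self']

theorem van_orbit {p : ℕ} [Fact p.Prime] {P Ω : Type*} [Group P] [Finite P]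
    [MulAction P Ω] (hP : IsPGroup p P) (hw : NoWr p P) (κ : P → Ω → Cp p)
    (hκ : ∀ x y c, κ (x * y) c = κ x (y • c) * κ y c) (u : P)
    (hu : ∀ (l : ℕ) (c : Ω), p ∣ l → u ^ l • c = c → κ (u ^ l) c = 1)
    (O : Finset Ω) (hO : ∀ (x : P), ∀ c ∈ O, x • c ∈ O) (c₀ : Ω) (hfix : ∃ x : P, x • c₀ ≠ c₀)
    (horb : ∀ c ∈ O, ∃ a : P, a • c₀ = c) : ∏ c ∈ O, κ u c = 1 := by
  classical
  have hS : MulAction.stabilizer P c₀ ≠ ⊤ := fun h => by
    obtain ⟨x, hx⟩ := hfix
    exact hx (MulAction.mem_stabilizer_iff.1 (h ▸ Subgroup.mem_top x))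
  obtain ⟨R, hSR, hN, hR⟩ := exists_normal_index hP _ hS
  obtain ⟨χ, hχ0⟩ : ∃ χ : Ω → P ⧸ R, ∀ a : P, χ (a • c₀) = (a : P ⧸ R) := by
    refine ⟨fun c => if h : ∃ a : P, a • c₀ = c then (h.choose : P ⧸ R) else 1, fun a => ?_⟩
    have h : ∃ b : P, b • c₀ = a • c₀ := ⟨a, rfl⟩
    beta_reduce
    rw [dif_pos h, eq_comm, QuotientGroup.eq]
    refine hSR (MulAction.mem_stabilizer_iff.2 ?_)
    rw [mul_smul, h.choose_spec, inv_smul_smul]
  have hχ : ∀ (x : P), ∀ c ∈ O, χ (x • c) = (x : P ⧸ R) * χ c := fun x c hc => by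
    obtain ⟨a, rfl⟩ := horb c hc
    rw [← mul_smul, hχ0, hχ0, QuotientGroup.mk_mul]
  by_cases huR : u ∈ R
  · have : Fintype (P ⧸ R) := Fintype.ofFinite _
    have hinv : ∀ y ∈ R, ∀ c ∈ O.filter fun c => χ c = 1, y • c ∈ O.filter fun c => χ c = 1 :=
      fun y hy c hc => by
        obtain ⟨h1, h2⟩ := Finset.mem_filter.1 hc
        refine Finset.mem_filter.2 ⟨hO y c h1, ?_⟩
        rw [hχ y c h1, h2, mul_one, QuotientGroup.eq_one_iff]
        exact hy
    have key := norm_eq_one hw R hR (fun x => ∏ c ∈ O.filter fun c => χ c = 1, κ x c)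
      (fun x _ y hy => by
        simp only [hκ, Finset.prod_mul_distrib]
        rw [van_perm y _ (hinv y hy) (κ x)]) Quotient.out (fun j => Quotient.out_eq j) huR
    rw [← Finset.prod_fiberwise O χ (κ u), ← key]
    refine Finset.prod_congr rfl fun j _ => ?_
    have hj : ((Quotient.out j : P) : P ⧸ R) = j := Quotient.out_eq j
    generalize (Quotient.out j : P) = t at hj
    subst hj
    have hr : t⁻¹ * u * t ∈ R := hN.conj_mem' u huR t
    have e1 : ∀ c, κ t ((t⁻¹ * u * t) • c) * κ (t⁻¹ * u * t) c = κ u (t • c) * κ t c := fun c => by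
      rw [← hκ, ← hκ]
      congr 1
      group
    have e2 := Finset.prod_congr (s₁ := O.filter fun c => χ c = 1) rfl fun c _ => e1 c
    rw [Finset.prod_mul_distrib, Finset.prod_mul_distrib, van_perm _ _ (hinv _ hr) (κ t),
      mul_comm] at e2
    rw [mul_right_cancel e2]
    refine Finset.prod_nbij' (fun c => t⁻¹ • c) (fun c => t • c) ?_ ?_ ?_ ?_ ?_
    · intro c hc
      obtain ⟨h1, h2⟩ := Finset.mem_filter.1 hc
      refine Finset.mem_filter.2 ⟨hO _ c h1, ?_⟩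
      rw [hχ _ c h1, h2, QuotientGroup.mk_inv, inv_mul_cancel]
    · intro c hc
      obtain ⟨h1, h2⟩ := Finset.mem_filter.1 hc
      refine Finset.mem_filter.2 ⟨hO _ c h1, ?_⟩
      rw [hχ _ c h1, h2, mul_one]
    · intro c _
      exact smul_inv_smul t c
    · intro c _
      exact inv_smul_smul t c
    · intro c _
      rw [smul_inv_smul]
  · refine van_out κ hκ u O hO fun l c hc hl => hu l c ?_ hl
    have h1 := hχ (u ^ l) c hc
    rw [hl, QuotientGroup.mk_pow] at h1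
    have h2 : (u : P ⧸ R) ^ l = 1 := (mul_eq_right.1 h1.symm)
    have h3 : orderOf (u : P ⧸ R) ∣ p := hR ▸ orderOf_dvd_natCard _
    rcases (Nat.dvd_prime Fact.out).1 h3 with h4 | h4
    · exact (huR ((QuotientGroup.eq_one_iff u).1 (orderOf_eq_one_iff.1 h4))).elim
    · exact h4 ▸ orderOf_dvd_of_pow_eq_one h2

theorem prod_cocycle_eq_one {p : ℕ} [Fact p.Prime] {P Ω : Type*} [Group P] [Finite P]
    [MulAction P Ω] (hP : IsPGroup p P) (hw : NoWr p P) (κ : P → Ω → Cp p)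
    (hκ : ∀ x y c, κ (x * y) c = κ x (y • c) * κ y c) (u : P)
    (hu : ∀ (l : ℕ) (c : Ω), p ∣ l → u ^ l • c = c → κ (u ^ l) c = 1)
    (O : Finset Ω) (hO : ∀ (x : P), ∀ c ∈ O, x • c ∈ O) (hfix : ∀ c ∈ O, ∃ x : P, x • c ≠ c) :
    ∏ c ∈ O, κ u c = 1 := by
  classical
  induction O using Finset.strongInduction with
  | H O ih =>
    rcases O.eq_empty_or_nonempty with rfl | ⟨c₀, hc₀⟩
    · exact Finset.prod_empty
    rw [← Finset.prod_filter_mul_prod_filter_not O fun c => ∃ a : P, a • c₀ = c,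
      van_orbit hP hw κ hκ u hu _ ?_ c₀ (hfix c₀ hc₀) fun c hc => (Finset.mem_filter.1 hc).2,
      ih _ ?_ ?_ fun c hc => hfix c (Finset.mem_filter.1 hc).1, mul_one]
    · exact Finset.filter_ssubset.2 ⟨c₀, hc₀, not_not.2 ⟨1, one_smul _ _⟩⟩
    · intro x c hc
      obtain ⟨h1, h2⟩ := Finset.mem_filter.1 hc
      refine Finset.mem_filter.2 ⟨hO x c h1, ?_⟩
      rintro ⟨a, ha⟩
      exact h2 ⟨x⁻¹ * a, by rw [mul_smul, ha, inv_smul_smul]⟩
    · intro x c hc
      obtain ⟨h1, a, rfl⟩ := Finset.mem_filter.1 hc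
      exact Finset.mem_filter.2 ⟨hO x _ h1, x * a, mul_smul x a c₀⟩

end Pool.Agent.Lib.MP_b549f0_co.SP
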